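import Pool.Agent.V5helper79.EMT.Main
import Pool.Agent.V5helper79.EMT.Neg

set_option autoImplicit false

/-!
# Edge-magic total labelings of two disjoint cycles

For all `m ≥ n ≥ 3`, the disjoint union of a cycle of length `m` and a cycle of length `n` is
edge-magic total if and only if it is not the union of two triangles.
-/

namespace Pool.Agent.Results.MP_87e2cd_co.AllPairs

open Pool.Agent.R12.EMT Pool.Agent.V5helper79.EMT

/-- For `m ≥ n ≥ 3` the disjoint union of the cycles of lengths `m` and `n` is edge-magic total
if and only if `(m, n) ≠ (3, 3)`. -/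
theorem result : ∀ m n : ℕ, 3 ≤ n → n ≤ m →
    (EdgeMagicTotal (SimpleGraph.cycleGraph m ⊕g SimpleGraph.cycleGraph n) ↔
      ¬ (m = 3 ∧ n = 3)) := by
  intro m n hn hmn
  constructor
  · rintro h ⟨rfl, rfl⟩
    exact not_emt33 h
  · intro h
    exact emt_all m n (by omega) hn h

end Pool.Agent.Results.MP_87e2cd_co.AllPairs
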